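import Mathlib
import Pool.Agent.Work.MP_499dc6_lc.TSD.Stmts

/-!
# Sums of products of polynomials of bounded degree: definitions and statements

If the permanent of size `m` is a (border) sum of `r` products of `D` polynomials of degree at most
`t` (times a polynomial of small degree), then with `x = t D / m ≥ 1`
`3 r ≥ exp (c m / ((1 + log x) ^ 2 (t + √ x)))`.
-/

set_option autoImplicit false

namespace Pool.Agent.Work.MP_499dc6_lc.D4

open Pool.Agent.Work.MP_104cea_lc.SumDet
open Pool.Agent.Work.MP_104cea_lc.SDB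
open Pool.Agent.Work.MP_499dc6_lc.TSD (cntT thr)
open scoped PowerSeries
open MvPolynomial Finset

/-- `perm_m` is, up to `ε R` with `R` over `k[[ε]]`, a sum of `r` products `q * ∏ j, Q j` of
polynomials over the field `k((ε))`, where `q` has degree at most `e` and each of the `D` factors
`Q j` has degree at most `t`. -/
def BorderProdSum (k : Type) [Field k] (m D t e r : ℕ) : Prop :=
  ∃ (q : Fin r → MvPolynomial (V m) (LaurentSeries k))
    (Q : Fin r → Fin D → MvPolynomial (V m) (LaurentSeries k))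
    (R : MvPolynomial (V m) k⟦X⟧),
    (∀ s, (q s).totalDegree ≤ e) ∧ (∀ s j, (Q s j).totalDegree ≤ t) ∧
    ∑ s, q s * ∏ j, Q s j =
      map (algebraMap k⟦X⟧ (LaurentSeries k))
        ((gen m k⟦X⟧).permanent + C PowerSeries.X * R)

/-- The span of `x^A` times the product of the factors outside a set of `K` factors, `|A| = s`. -/
noncomputable def ProdSpan {σ F : Type} [Field F] {D : ℕ} (Q : Fin D → MvPolynomial σ F)
    (K s : ℕ) : Submodule F (MvPolynomial σ F) :=
  Submodule.span F {p | ∃ (A : σ →₀ ℕ) (J : Finset (Fin D)), A.degree = s ∧ J.card = K ∧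
    p = monomial A 1 * ∏ j ∈ Jᶜ, Q j}

/-- At most `K` of the diagonal cells are missing. -/
def Dg {D : ℕ} (K : ℕ) (S : Finset (V D)) : Prop :=
  D - K ≤ (univ.filter fun j : Fin D => (j, j) ∈ S).card

/-- The upper bound for the products. -/
def StmtU : Prop :=
  ∀ (F : Type) [Field F] [CharZero F] (N D K t s : ℕ) (ι : V D → V N)
    (Q : Fin D → MvPolynomial (V N) F), 1 ≤ t → K ≤ D → Function.Injective ι →
    (∀ j, (Q j).IsHomogeneous t) →
    FiniteDimensional F (ProdSpan Q K s) ∧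
    Module.finrank F (ProdSpan Q K s) ≤ cntT ι t (s + t * (D - K)) (Dg K)

/-- Substitution of linear forms and homogenisation. -/
def StmtPS1 : Prop :=
  ∀ (F : Type) [Field F] (m D t e r : ℕ), m ≤ t * D + e → BorderProdSum F m D t e r →
    ∀ (σ : Type) (y0 : σ) (N : Matrix (Fin m) (Fin m) (MvPolynomial σ F)),
    (∀ i j, (N i j).IsHomogeneous 1) →
    ∃ (q : Fin r → MvPolynomial σ (LaurentSeries F))
      (B : Fin r → Fin D → MvPolynomial σ (LaurentSeries F))
      (R : MvPolynomial σ F⟦X⟧),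
      (∀ s, (q s).IsHomogeneous e) ∧ (∀ s j, (B s j).IsHomogeneous t) ∧
      ∑ s, q s * ∏ j, B s j = map (algebraMap F⟦X⟧ (LaurentSeries F))
        (map (PowerSeries.C (R := F)) (X y0 ^ (t * D + e - m) * N.permanent) +
          C PowerSeries.X * R)

/-- The product rule. -/
def StmtPS4 : Prop :=
  ∀ (F σ : Type) [Field F] (D K t e s : ℕ) (q : MvPolynomial σ F)
    (Q : Fin D → MvPolynomial σ F), K ≤ D → 1 ≤ t →
    q.IsHomogeneous e → (∀ j, (Q j).IsHomogeneous t) →
    SP K s (q * ∏ j, Q j) ≤ ProdSpan Q K (s + e + (t - 1) * K)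

/-- The comparison of counts. -/
def StmtPS5 : Prop :=
  ∀ (F : Type) [Field F] [CharZero F] (m D t e r K a L N : ℕ) (ω : F) (g : Ix K a L → V N)
    (ι : V D → V N), IsPrimitiveRoot ω (a + 1) → Function.Injective g → Function.Injective ι →
    1 ≤ K → K ≤ D → 1 ≤ a → 1 ≤ t → K * beta a L ≤ m → m ≤ t * D → BorderProdSum F m D t e r →
    ∀ d, cnt N d (Good g) ≤
      r * cntT ι t (d + (t * D + e - K - 2 * a * K * (L + 1))) (Dg K)

/-- The inequality for given parameters. -/
def IneqP (m D t e r : ℕ) : Prop :=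
  ∀ (K a L : ℕ) (z κ : ℝ), 1 ≤ K → K ≤ D → 1 ≤ a → K * beta a L ≤ m → 0 < z → z < 1 → 1 ≤ κ →
    z ^ e * (2 - z ^ (L + 1)) ^ (2 * a * K) ≤ r * (κ ^ K * (1 + ((z ^ t)⁻¹ - 1) / κ) ^ D)

/-- The inequality, over an algebraically closed field. -/
def StmtPE1 : Prop :=
  ∀ (F : Type) [Field F] [CharZero F] [IsAlgClosed F] (m D t e r : ℕ), 1 ≤ t → m ≤ t * D →
    BorderProdSum F m D t e r → IneqP m D t e r

/-- The exponent of the lower bound, without the constant. -/
noncomputable def expon (m D t : ℕ) : ℝ :=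
  m / ((1 + Real.log (t * D / m)) ^ 2 * (t + √(t * D / m)))

/-- The numeric part. -/
def StmtPE2 : Prop :=
  ∃ c : ℝ, 0 < c ∧ ∀ (m D t e r : ℕ), 1 ≤ m → 1 ≤ t → m ≤ t * D → 1 ≤ r →
    (e : ℝ) ≤ c * m / (1 + Real.log (t * D / m)) ^ 2 → IneqP m D t e r →
    Real.exp (c * expon m D t) ≤ 3 * r

/-- Base change to the algebraic closure, and `r = 0` is impossible. -/
def StmtPE3 : Prop :=
  ∀ (F : Type) [Field F] [CharZero F] (m D t e r : ℕ), BorderProdSum F m D t e r →
    1 ≤ r ∧ BorderProdSum (AlgebraicClosure F) m D t e r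

/-- The theorem. -/
def StmtPMain : Prop :=
  ∃ c : ℝ, 0 < c ∧ ∀ (k : Type) [Field k] [CharZero k] (m D t e r : ℕ), 1 ≤ m → 1 ≤ t →
    m ≤ t * D → (e : ℝ) ≤ c * m / (1 + Real.log (t * D / m)) ^ 2 → BorderProdSum k m D t e r →
    Real.exp (c * expon m D t) ≤ 3 * r

theorem Main (h1 : StmtPE1) (h2 : StmtPE2) (h3 : StmtPE3) : StmtPMain := by
  obtain ⟨c, hc, h⟩ := h2
  refine ⟨c, hc, ?_⟩
  intro k _ _ m D t e r hm ht hmD he hb
  obtain ⟨hr, hb'⟩ := h3 k m D t e r hb
  have : CharZero (AlgebraicClosure k) :=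
    charZero_of_injective_algebraMap (FaithfulSMul.algebraMap_injective k (AlgebraicClosure k))
  exact h m D t e r hm ht hmD hr he (h1 (AlgebraicClosure k) m D t e r ht hmD hb')

end Pool.Agent.Work.MP_499dc6_lc.D4
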