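import Mathlib
import Pool.Agent.Work.MP_499dc6_lc.D4.Defs
import Pool.Agent.Work.MP_499dc6_lc.TSD.TS1
import Pool.Agent.Work.MP_499dc6_lc.TSD.TE3

/-!
# Products of polynomials: substitution, base change, product rule
-/

set_option autoImplicit false

namespace Pool.Agent.Work.MP_499dc6_lc.D4

open Pool.Agent.Work.MP_104cea_lc.SumDet
open Pool.Agent.Work.MP_104cea_lc.SDB
open Pool.Agent.Work.MP_104cea_lc.SDB.S1aux
open scoped PowerSeries
open MvPolynomial

theorem PS1 : StmtPS1 := by
  intro F _ m D t e r hmn hB σ y0 N hN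
  obtain ⟨q, A, R, hq, hA, hid⟩ := hB
  set ψ := algebraMap F⟦X⟧ (LaurentSeries F) with hψ
  set νA : V m → MvPolynomial σ F⟦X⟧ := fun v => map (PowerSeries.C (R := F)) (N v.1 v.2) with hνA
  set νK : V m → MvPolynomial σ (LaurentSeries F) := fun v => map ψ (νA v) with hνK
  have hνAh : ∀ v, (νA v).IsHomogeneous 1 := fun v => (hN _ _).map _
  have hνKh : ∀ v, (νK v).IsHomogeneous 1 := fun v => (hνAh v).map _
  have hMd : ∀ s j, (phi νK (A s j)).natDegree ≤ t := fun s j =>
    (natDegree_phi_le _ _).trans (hA s j)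
  have hqd : ∀ s, (phi νK (q s)).natDegree ≤ e := fun s => (natDegree_phi_le _ _).trans (hq s)
  have hPd : ∀ s, (phi νK (∏ j, A s j)).natDegree ≤ t * D := by
    intro s
    rw [map_prod]
    refine (Polynomial.natDegree_prod_le _ _).trans ?_
    calc ∑ i, (phi νK (A s i)).natDegree ≤ ∑ _i : Fin D, t :=
          Finset.sum_le_sum fun i _ => hMd s i
      _ = t * D := by simp [mul_comm]
  refine ⟨fun s => hom νK (X y0) e (q s), fun s j => hom νK (X y0) t (A s j),
    hom νA (X y0) (e + t * D) R,
    fun s => hom_homogeneous νK hνKh _ (isHomogeneous_X _ _) _ (hqd s),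
    fun s j => hom_homogeneous νK hνKh _ (isHomogeneous_X _ _) _ (hMd s j), ?_⟩
  have h1 : ∀ s, hom νK (X y0) e (q s) * ∏ j, hom νK (X y0) t (A s j) =
      hom νK (X y0) (e + t * D) (q s * ∏ j, A s j) := by
    intro s
    rw [hom_mul νK (X y0) (hqd s) (hPd s)]
    have h2 := TSD.TS1aux.hom_prod νK (X y0) t (Finset.univ : Finset (Fin D)) (fun j => A s j)
      (fun j _ => hMd s j)
    rw [Finset.card_univ, Fintype.card_fin] at h2
    rw [h2]
  simp_rw [h1]
  rw [← map_sum]
  rw [hid]
  have h3 : (X y0 : MvPolynomial σ (LaurentSeries F)) = map ψ (X y0) := (map_X _ _).symm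
  rw [h3, hνK, hom_map]
  congr 1
  rw [map_add, hom_C_mul]
  congr 1
  rw [hom_permanent (by omega), map_mul, map_pow, map_X]
  congr 2
  · omega
  · unfold Matrix.permanent
    rw [map_sum]
    refine Finset.sum_congr rfl fun p _ => ?_
    rw [map_prod]
    rfl

theorem PE3 : StmtPE3 := by
  intro F _ _ m D t e r ⟨q, A, R, hq, hA, hid⟩
  constructor
  · by_contra hr
    have hr0 : r = 0 := by omega
    subst hr0
    rw [Finset.univ_eq_empty, Finset.sum_empty] at hid
    have hinj : Function.Injective (MvPolynomial.map (σ := V m)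
        (algebraMap F⟦X⟧ (LaurentSeries F))) :=
      MvPolynomial.map_injective _ (FaithfulSMul.algebraMap_injective _ _)
    have h1 : (gen m F⟦X⟧).permanent + MvPolynomial.C PowerSeries.X * R = 0 := by
      apply hinj
      rw [← hid, map_zero]
    have h2 := congrArg (MvPolynomial.map (σ := V m) (PowerSeries.constantCoeff (R := F))) h1
    rw [map_add, map_mul, E3_gen, MvPolynomial.map_C, PowerSeries.constantCoeff_X, map_zero,
      map_zero, zero_mul, add_zero] at h2
    have h3 := congrArg (MvPolynomial.eval (fun p : V m => if p.1 = p.2 then (1 : F) else 0)) h2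
    rw [E3_perm, map_zero] at h3
    have h4 : (gen m F).map (MvPolynomial.eval (fun p : V m => if p.1 = p.2 then (1 : F) else 0)) =
        1 := by
      ext i j
      simp [gen, Matrix.one_apply]
    rw [h4, Matrix.permanent_one] at h3
    exact one_ne_zero h3
  · obtain ⟨φ, hφ⟩ := E3_lift F (AlgebraicClosure F) (algebraMap F (AlgebraicClosure F))
    refine ⟨fun s => MvPolynomial.map φ (q s), fun s j => MvPolynomial.map φ (A s j),
      MvPolynomial.map (PowerSeries.map (algebraMap F (AlgebraicClosure F))) R, ?_, ?_, ?_⟩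
    · intro s
      exact le_trans (Finset.sup_mono (MvPolynomial.support_map_subset φ (q s))) (hq s)
    · intro s j
      exact le_trans (Finset.sup_mono (MvPolynomial.support_map_subset φ (A s j))) (hA s j)
    · have h1 := congrArg (MvPolynomial.map φ) hid
      rw [map_sum] at h1
      have hR : MvPolynomial.map φ (MvPolynomial.map (algebraMap F⟦X⟧ (LaurentSeries F))
          ((gen m F⟦X⟧).permanent + MvPolynomial.C PowerSeries.X * R)) =
          MvPolynomial.map (algebraMap (AlgebraicClosure F)⟦X⟧ (LaurentSeries (AlgebraicClosure F)))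
            ((gen m (AlgebraicClosure F)⟦X⟧).permanent + MvPolynomial.C PowerSeries.X *
              MvPolynomial.map (PowerSeries.map (algebraMap F (AlgebraicClosure F))) R) := by
        have hcomp : φ.comp (algebraMap F⟦X⟧ (LaurentSeries F)) =
            (algebraMap (AlgebraicClosure F)⟦X⟧ (LaurentSeries (AlgebraicClosure F))).comp
              (PowerSeries.map (algebraMap F (AlgebraicClosure F))) := RingHom.ext hφ
        rw [MvPolynomial.map_map, hcomp, ← MvPolynomial.map_map]
        congr 1
        rw [map_add, map_mul, E3_gen, MvPolynomial.map_C, PowerSeries.map_X]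
      rw [hR] at h1
      rw [← h1]
      apply Finset.sum_congr rfl
      intro s _
      rw [map_mul, map_prod]

namespace PS4

variable {σ F : Type} [Field F] {D : ℕ} {Q : Fin D → MvPolynomial σ F}

theorem mono {k s : ℕ} (A : σ →₀ ℕ) {g : MvPolynomial σ F} (hg : g ∈ ProdSpan Q k s) :
    monomial A 1 * g ∈ ProdSpan Q k (A.degree + s) := by
  unfold ProdSpan at hg
  induction hg using Submodule.span_induction with
  | mem x hx =>
    obtain ⟨B, J, hB, hJ, rfl⟩ := hx
    refine Submodule.subset_span ⟨A + B, J, ?_, hJ, ?_⟩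
    · rw [map_add, hB]
    · rw [← mul_assoc, monomial_mul, one_mul]
  | zero => rw [mul_zero]; exact Submodule.zero_mem _
  | add x y _ _ hx hy => rw [mul_add]; exact Submodule.add_mem _ hx hy
  | smul a x _ hx => rw [mul_smul_comm]; exact Submodule.smul_mem _ _ hx

theorem mul {k s d : ℕ} {h g : MvPolynomial σ F} (hh : h.IsHomogeneous d)
    (hg : g ∈ ProdSpan Q k s) : h * g ∈ ProdSpan Q k (d + s) := by
  rw [h.as_sum, Finset.sum_mul]
  refine Submodule.sum_mem _ fun B hB => ?_
  have h1 : B.degree = d := by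
    by_contra h2
    exact (mem_support_iff.1 hB) (hh.coeff_eq_zero h2)
  have h2 : monomial B (coeff B h) = coeff B h • (monomial B 1 : MvPolynomial σ F) := by
    rw [smul_monomial, smul_eq_mul, mul_one]
  rw [h2, smul_mul_assoc, ← h1]
  exact Submodule.smul_mem _ _ (mono B hg)

theorem gen0 (J : Finset (Fin D)) : ∏ j ∈ Jᶜ, Q j ∈ ProdSpan Q J.card 0 :=
  Submodule.subset_span ⟨0, J, by simp, rfl, by simp⟩

theorem compl_insert (J : Finset (Fin D)) (i : Fin D) : (insert i J)ᶜ = Jᶜ.erase i := by
  ext x
  simp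

theorem expand {t : ℕ} (hQ : ∀ j, (Q j).IsHomogeneous t) (J : Finset (Fin D)) (i : Fin D)
    (hi : i ∉ J) : ∏ j ∈ Jᶜ, Q j ∈ ProdSpan Q (J.card + 1) t := by
  have h0 : i ∈ Jᶜ := Finset.mem_compl.mpr hi
  rw [← Finset.mul_prod_erase Jᶜ Q h0, ← compl_insert]
  have h1 := mul (hQ i) (gen0 (Q := Q) (insert i J))
  rw [add_zero, Finset.card_insert_of_notMem hi] at h1
  exact h1

theorem leib (v : σ) (S : Finset (Fin D)) :
    pderiv v (∏ j ∈ S, Q j) = ∑ i ∈ S, (∏ j ∈ S.erase i, Q j) * pderiv v (Q i) := by
  classical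
  induction S using Finset.induction_on with
  | empty => simp
  | insert a S ha ih =>
    rw [Finset.prod_insert ha, Derivation.leibniz, smul_eq_mul, smul_eq_mul, ih,
      Finset.sum_insert ha, Finset.erase_insert ha, Finset.mul_sum, add_comm]
    congr 1
    refine Finset.sum_congr rfl fun i hi => ?_
    have h1 : (insert a S).erase i = insert a (S.erase i) := by
      rw [Finset.erase_insert_of_ne]
      rintro rfl
      exact ha hi
    rw [h1, Finset.prod_insert (fun h => ha (Finset.mem_of_mem_erase h)), mul_assoc]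

theorem pprod {t : ℕ} (hQ : ∀ j, (Q j).IsHomogeneous t) (v : σ) (J : Finset (Fin D)) :
    pderiv v (∏ j ∈ Jᶜ, Q j) ∈ ProdSpan Q (J.card + 1) (t - 1) := by
  rw [leib]
  refine Submodule.sum_mem _ fun i hi => ?_
  rw [mul_comm, ← compl_insert]
  have h1 := mul ((hQ i).pderiv (i := v)) (gen0 (Q := Q) (insert i J))
  rw [add_zero, Finset.card_insert_of_notMem (Finset.mem_compl.mp hi)] at h1
  exact h1

theorem step {t : ℕ} (ht : 1 ≤ t) (hQ : ∀ j, (Q j).IsHomogeneous t) {k s : ℕ} (hk : k < D)
    (v : σ) {g : MvPolynomial σ F} (hg : g ∈ ProdSpan Q k s) :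
    pderiv v g ∈ ProdSpan Q (k + 1) (s + (t - 1)) := by
  unfold ProdSpan at hg
  induction hg using Submodule.span_induction with
  | mem x hx =>
    obtain ⟨A, J, hA, hJ, rfl⟩ := hx
    rw [Derivation.leibniz, smul_eq_mul, smul_eq_mul]
    refine Submodule.add_mem _ ?_ ?_
    · have h1 := mono A (pprod hQ v J)
      rwa [hA, hJ] at h1
    · rw [pderiv_monomial, one_mul]
      by_cases h0 : A v = 0
      · rw [h0, Nat.cast_zero, monomial_zero, mul_zero]
        exact Submodule.zero_mem _
      · have h2 : (A - Finsupp.single v 1).degree + 1 = s := by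
          have h3 : A - Finsupp.single v 1 + Finsupp.single v 1 = A := by
            refine tsub_add_cancel_of_le ?_
            rw [Finsupp.single_le_iff]
            exact Nat.one_le_iff_ne_zero.2 h0
          have h4 := congrArg Finsupp.degree h3
          rw [map_add, Finsupp.degree_single] at h4
          rw [h4, hA]
        have h3 : monomial (A - Finsupp.single v 1) ((A v : ℕ) : F) =
            (A v : F) • (monomial (A - Finsupp.single v 1) 1 : MvPolynomial σ F) := by
          rw [smul_monomial, smul_eq_mul, mul_one]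
        rw [mul_comm, h3, smul_mul_assoc]
        refine Submodule.smul_mem _ _ ?_
        obtain ⟨i, hi⟩ : ∃ i, i ∉ J := by
          by_contra hcon
          push Not at hcon
          have h6 : J = Finset.univ := Finset.eq_univ_iff_forall.mpr hcon
          rw [h6, Finset.card_univ, Fintype.card_fin] at hJ
          omega
        have h5 := mono (A - Finsupp.single v 1) (expand hQ J i hi)
        have h6 : (A - Finsupp.single v 1).degree + t = s + (t - 1) := by omega
        rwa [h6, hJ] at h5
  | zero => rw [map_zero]; exact Submodule.zero_mem _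
  | add x y _ _ hx hy => rw [map_add]; exact Submodule.add_mem _ hx hy
  | smul a x _ hx => rw [Derivation.map_smul]; exact Submodule.smul_mem _ _ hx

theorem fold {t : ℕ} (ht : 1 ≤ t) (hQ : ∀ j, (Q j).IsHomogeneous t) {s : ℕ}
    {g : MvPolynomial σ F} (hg : g ∈ ProdSpan Q 0 s) (L : List σ) (hL : L.length ≤ D) :
    L.foldr (fun v g => pderiv v g) g ∈ ProdSpan Q L.length (s + (t - 1) * L.length) := by
  induction L with
  | nil => simpa using hg
  | cons v L ih =>
    rw [List.foldr_cons]
    rw [List.length_cons] at hL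
    have h1 := step ht hQ (by omega) v (ih (by omega))
    have h2 : s + (t - 1) * L.length + (t - 1) = s + (t - 1) * (v :: L).length := by
      rw [List.length_cons]
      ring
    rwa [h2] at h1

end PS4

theorem PS4 : StmtPS4 := by
  intro F σ _ D K t e s q Q hK ht hq hQ
  have h0 : q * ∏ j, Q j ∈ ProdSpan Q 0 e := by
    have h1 : ∏ j, Q j ∈ ProdSpan Q 0 0 := by
      have h2 := PS4.gen0 (Q := Q) (∅ : Finset (Fin D))
      simpa using h2
    simpa using PS4.mul hq h1
  unfold SP
  refine Submodule.span_le.2 ?_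
  rintro p ⟨L, A, hL, hA, rfl⟩
  have h1 := PS4.mono A (PS4.fold ht hQ h0 L (by omega))
  rw [hA, hL] at h1
  have h2 : s + (e + (t - 1) * K) = s + e + (t - 1) * K := by ring
  rwa [h2] at h1

end Pool.Agent.Work.MP_499dc6_lc.D4
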