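import Mathlib
import Pool.Agent.Work.MP_499dc6_lc.D4.Defs
import Pool.Agent.Work.MP_104cea_lc.Bd.B06

/-!
# Products of polynomials: comparison of counts
-/

set_option autoImplicit false

namespace Pool.Agent.Work.MP_499dc6_lc.D4

open Pool.Agent.Work.MP_104cea_lc.SumDet
open Pool.Agent.Work.MP_104cea_lc.SDB
open Pool.Agent.Work.MP_499dc6_lc.TSD (cntT thr)
open scoped PowerSeries
open MvPolynomial Finset

theorem PS5 (hU : StmtU) (hG4 : StmtG4) (hS3 : StmtS3) (h1 : StmtPS1) (h4 : StmtPS4) :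
    StmtPS5 := by
  intro F _ _ m D t e r K a L N ω g ι hω hg hι hK hKn ha ht hKm hmn hbd d
  rcases lt_or_ge d (2 * a * K * (L + 1)) with htk | htk
  · rw [S5_zero hg htk]
    exact Nat.zero_le _
  obtain ⟨s, rfl⟩ : ∃ s, d = s + 2 * a * K * (L + 1) := ⟨d - 2 * a * K * (L + 1), by omega⟩
  have : CharZero (LaurentSeries F) :=
    charZero_of_injective_algebraMap (algebraMap F (LaurentSeries F)).injective
  obtain ⟨M, c, p, hM, hc, hp, hperm⟩ := hG4 F K a L m ω hω hKm
  obtain ⟨q, B, R, hq, hB, hsum⟩ := h1 F m D t e r (hmn.trans (Nat.le_add_right _ _)) hbd (V N)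
    (g none) (M.map (rename g)) (fun i j => (hM i j).rename_isHomogeneous)
  have hsize := S5_size K a L
  have heq : X (g none) ^ (t * D + e - m) * (M.map (rename g)).permanent =
      rename g (C c * (X none ^ (p + (t * D + e - m)) * target F K a L)) := by
    rw [S5_perm, hperm]
    simp only [map_mul, map_pow, rename_X, rename_C]
    ring
  rw [heq] at hsum
  obtain ⟨hM1, hM2⟩ := E2_sup (K := LaurentSeries F) (Finset.univ : Finset (Fin r))
    (fun x => ProdSpan (B x) K (s + e + (t - 1) * K))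
    (cntT ι t (s + e + (t - 1) * K + t * (D - K)) (Dg K))
    (fun x _ => hU (LaurentSeries F) N D K t (s + e + (t - 1) * K) ι (B x) ht hKn hι (hB x))
  have hle := hS3 F N K a L (p + (t * D + e - m)) s c g R
    ((Finset.univ : Finset (Fin r)).sup
      (fun x => ProdSpan (B x) K (s + e + (t - 1) * K))) hc hg (by
      rw [← hsum]
      refine E2_SP_sum _ _ _ _ _ fun x hx => ?_
      refine (h4 (LaurentSeries F) (V N) D K t e s (q x) (B x) hKn ht (hq x)
        (hB x)).trans ?_
      exact Finset.le_sup (f := fun x : Fin r => ProdSpan (B x) K (s + e + (t - 1) * K))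
        (Finset.mem_univ x))
  have hdeg : s + 2 * a * K * (L + 1) + (t * D + e - K - 2 * a * K * (L + 1)) =
      s + e + (t - 1) * K + t * (D - K) := by
    obtain ⟨t', rfl⟩ : ∃ t', t = t' + 1 := ⟨t - 1, by omega⟩
    obtain ⟨δ, rfl⟩ : ∃ δ, D = δ + K := ⟨D - K, by omega⟩
    have h2 : (t' + 1) * (δ + K) = t' * K + K + (t' + 1) * δ := by
      ring
    have h3 : t' + 1 - 1 = t' := rfl
    have h5 : δ + K - K = δ := by omega
    rw [h3, h5]
    omega
  rw [hdeg]
  refine hle.trans (hM2.trans ?_)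
  rw [Finset.card_univ, Fintype.card_fin]

end Pool.Agent.Work.MP_499dc6_lc.D4
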