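import Mathlib
import Pool.Agent.Work.MP_499dc6_lc.D4.Defs

/-!
# Products of polynomials: the numeric part
-/

set_option autoImplicit false

namespace Pool.Agent.Work.MP_499dc6_lc.D4

open Pool.Agent.Work.MP_104cea_lc.SDB

theorem num_pow (a : ℕ) (ha : 19 ≤ a) : 972 * a ^ 2 ≤ 2 ^ a := by
  induction a, ha using Nat.le_induction with
  | base => norm_num
  | succ n hn ih =>
    rw [pow_succ 2 n]
    nlinarith

/-- The choice of the number of bits. -/
theorem num_a (x : ℝ) (hx : 1 ≤ x) : ∃ a : ℕ, 1 ≤ a ∧ 162 * a * (4 * a + 2) * x ≤ 4 ^ a ∧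
    (2 : ℝ) ^ a ≤ 63 * a * √x ∧ (a : ℝ) ≤ 20 * (1 + Real.log x) := by
  classical
  have hx0 : 0 < x := by linarith
  have hlog : 0 ≤ Real.log x := Real.log_nonneg hx
  have hex : ∃ a : ℕ, 1 ≤ a ∧ 162 * a * (4 * a + 2) * x ≤ (4 : ℝ) ^ a ∧
      (a : ℝ) ≤ 20 * (1 + Real.log x) := by
    refine ⟨19 + ⌈2 * Real.log x⌉₊, by omega, ?_, ?_⟩
    · set a := 19 + ⌈2 * Real.log x⌉₊ with ha
      have h19 : 19 ≤ a := by omega
      have h1 : (972 * (a : ℝ) ^ 2) ≤ 2 ^ a := by exact_mod_cast num_pow a h19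
      have h2 : x ≤ (2 : ℝ) ^ a := by
        have h3 : 2 * Real.log x ≤ a := by
          have := Nat.le_ceil (2 * Real.log x)
          rw [ha]
          push_cast
          linarith
        have h4 : Real.log x ≤ a * Real.log 2 := by
          have h5 := Real.log_two_gt_d9
          have h6 : (0 : ℝ) ≤ a := Nat.cast_nonneg a
          nlinarith
        calc x = Real.exp (Real.log x) := (Real.exp_log hx0).symm
          _ ≤ Real.exp (a * Real.log 2) := Real.exp_le_exp.mpr h4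
          _ = 2 ^ a := by
            rw [Real.exp_nat_mul, Real.exp_log (by norm_num)]
      have h1a : (1 : ℝ) ≤ a := by exact_mod_cast (by omega : 1 ≤ a)
      have h7 : 162 * (a : ℝ) * (4 * a + 2) ≤ 972 * (a : ℝ) ^ 2 := by nlinarith
      calc 162 * (a : ℝ) * (4 * a + 2) * x ≤ 972 * (a : ℝ) ^ 2 * x :=
            mul_le_mul_of_nonneg_right h7 hx0.le
        _ ≤ 2 ^ a * 2 ^ a := mul_le_mul h1 h2 hx0.le (by positivity)
        _ = 4 ^ a := by rw [← mul_pow]; norm_num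
    · have h := Nat.ceil_lt_add_one (a := 2 * Real.log x) (by positivity)
      push_cast
      linarith
  have hex' : ∃ a : ℕ, 1 ≤ a ∧ 162 * a * (4 * a + 2) * x ≤ (4 : ℝ) ^ a := by
    obtain ⟨a, h1, h2, -⟩ := hex
    exact ⟨a, h1, h2⟩
  obtain ⟨a1, h11, h12, h13⟩ := hex
  obtain ⟨ha, hP⟩ := Nat.find_spec hex'
  have hle : Nat.find hex' ≤ a1 := Nat.find_min' hex' ⟨h11, h12⟩
  have hmin : ∀ b, b < Nat.find hex' → ¬ (1 ≤ b ∧ 162 * b * (4 * b + 2) * x ≤ (4 : ℝ) ^ b) :=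
    fun b hb => Nat.find_min hex' hb
  set a := Nat.find hex' with hadef
  have h1a : (1 : ℝ) ≤ a := by exact_mod_cast ha
  refine ⟨a, ha, hP, ?_, (by exact_mod_cast hle : (a : ℝ) ≤ a1).trans h13⟩
  have h4 : (4 : ℝ) ^ a ≤ 3969 * a ^ 2 * x := by
    rcases Nat.lt_or_ge a 2 with h2 | h2
    · have h3 : a = 1 := by omega
      rw [h3]
      norm_num
      linarith
    · obtain ⟨b, hb⟩ : ∃ b, a = b + 1 := ⟨a - 1, by omega⟩
      have hnb := hmin b (by omega)
      have hb1 : 1 ≤ b := by omega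
      have h5 : (4 : ℝ) ^ b < 162 * b * (4 * b + 2) * x := by
        by_contra hcon
        push Not at hcon
        exact hnb ⟨hb1, hcon⟩
      have hbr : (1 : ℝ) ≤ b := by exact_mod_cast hb1
      rw [hb, pow_succ]
      push_cast
      have h6 : 162 * (b : ℝ) * (4 * b + 2) * 4 ≤ 3969 * (b + 1) ^ 2 := by nlinarith
      have h7 := mul_le_mul_of_nonneg_right h6 hx0.le
      linarith
  have h5 : ((2 : ℝ) ^ a) ^ 2 ≤ (63 * a * √x) ^ 2 := by
    rw [mul_pow, mul_pow, Real.sq_sqrt hx0.le, ← pow_mul, mul_comm a 2, pow_mul]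
    norm_num
    linarith
  exact le_of_sq_le_sq h5 (by positivity)

theorem num_bern (a : ℕ) (ha : 1 ≤ a) :
    (4 : ℝ) ^ a / 2 ≤ (2 - Real.exp (-(a : ℝ))) ^ (2 * a) := by
  have h1 : (2 - Real.exp (-(a : ℝ))) ^ (2 * a) =
      4 ^ a * (1 + -(Real.exp (-(a : ℝ)) / 2)) ^ (2 * a) := by
    have h2 : (2 - Real.exp (-(a : ℝ))) = 2 * (1 + -(Real.exp (-(a : ℝ)) / 2)) := by ring
    rw [h2, mul_pow]
    congr 1
    rw [pow_mul]
    norm_num
  rw [h1]
  have hle1 : Real.exp (-(a : ℝ)) ≤ 1 := by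
    rw [Real.exp_le_one_iff]
    have : (0 : ℝ) ≤ a := Nat.cast_nonneg a
    linarith
  have h3 := one_add_mul_le_pow (a := -(Real.exp (-(a : ℝ)) / 2)) (by linarith) (2 * a)
  have h4 : (a : ℝ) * Real.exp (-(a : ℝ)) ≤ 1 / 2 := by
    have h5 : 2 * (a : ℝ) ≤ Real.exp a := by
      have h6 := Real.add_one_le_exp ((a : ℝ) / 2)
      have h7 : Real.exp (a : ℝ) = Real.exp ((a : ℝ) / 2) ^ 2 := by
        rw [← Real.exp_nat_mul]
        congr 1
        push_cast
        ring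
      have h8 : (0 : ℝ) ≤ (a : ℝ) / 2 + 1 := by positivity
      have h9 : ((a : ℝ) / 2 + 1) ^ 2 ≤ Real.exp ((a : ℝ) / 2) ^ 2 :=
        pow_le_pow_left₀ h8 h6 2
      rw [h7]
      nlinarith [sq_nonneg ((a : ℝ) / 2 - 1)]
    rw [Real.exp_neg, mul_inv_le_iff₀ (Real.exp_pos _)]
    linarith
  have h10 : (1 : ℝ) / 2 ≤ (1 + -(Real.exp (-(a : ℝ)) / 2)) ^ (2 * a) := by
    refine le_trans ?_ h3
    push_cast
    linarith
  calc (4 : ℝ) ^ a / 2 = 4 ^ a * (1 / 2) := by ring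
    _ ≤ _ := mul_le_mul_of_nonneg_left h10 (by positivity)

theorem num_beta (a L : ℕ) (h : 2 ^ a ≤ L + 1) : (beta a L : ℝ) ≤ (4 * a + 2) * (L + 1) := by
  have h1 : beta a L ≤ 2 * ((a + 1) * (L + 1) + a * (L + 1)) := by
    unfold beta
    have := Nat.mul_le_mul_left (a + 1) h
    omega
  have h2 : (beta a L : ℝ) ≤ 2 * ((a + 1) * (L + 1) + a * (L + 1)) := by exact_mod_cast h1
  calc (beta a L : ℝ) ≤ 2 * ((a + 1) * (L + 1) + a * (L + 1)) := h2
    _ = _ := by ring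

/-- The core of the numeric part. -/
theorem num_core (m D t e r K a L : ℕ) (hm : 1 ≤ m) (ht : 1 ≤ t) (hmD : m ≤ t * D)
    (ha : 1 ≤ a) (hK : 1 ≤ K) (hKD : K ≤ D) (hβ : K * beta a L ≤ m) (hL2 : 2 ^ a ≤ L + 1)
    (hLt : a * t ≤ L + 1) (hmK : (m : ℝ) ≤ 2 * K * ((4 * a + 2) * (L + 1)))
    (hxa : 162 * a * (4 * a + 2) * ((t * D / m : ℝ)) ≤ 4 ^ a)
    (he : (a * e / (L + 1) : ℝ) ≤ K) (hI : IneqP m D t e r) : Real.exp K ≤ r := by
  have hm0 : (0 : ℝ) < m := by exact_mod_cast hm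
  have ht0 : (0 : ℝ) < t := by exact_mod_cast ht
  have ha1 : (1 : ℝ) ≤ a := by exact_mod_cast ha
  have ha0 : (0 : ℝ) < a := by linarith
  have hL0 : (0 : ℝ) < (L : ℝ) + 1 := by positivity
  have hK0 : (0 : ℝ) < K := by exact_mod_cast hK
  have hx1 : (1 : ℝ) ≤ t * D / m := by
    rw [one_le_div hm0]
    exact_mod_cast hmD
  set x : ℝ := t * D / m with hx
  set z : ℝ := Real.exp (-(a / (L + 1))) with hz
  set κ : ℝ := 4 * a * (4 * a + 2) * x with hκ
  have hκ1 : 1 ≤ κ := by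
    have h1 : 1 ≤ 4 * (a : ℝ) * (4 * a + 2) := by nlinarith
    calc (1 : ℝ) = 1 * 1 := by ring
      _ ≤ 4 * a * (4 * a + 2) * x := mul_le_mul h1 hx1 (by norm_num) (by positivity)
  have hκ0 : 0 < κ := by linarith
  have hz0 : 0 < z := Real.exp_pos _
  have hz1 : z < 1 := by
    rw [hz, Real.exp_lt_one_iff]
    have : 0 < (a : ℝ) / (L + 1) := by positivity
    linarith
  have hmain := hI K a L z κ hK hKD ha hβ hz0 hz1 hκ1
  have hzL : z ^ (L + 1) = Real.exp (-(a : ℝ)) := by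
    rw [hz, ← Real.exp_nat_mul]
    congr 1
    push_cast
    field_simp
  have hze : Real.exp (-(K : ℝ)) ≤ z ^ e := by
    rw [hz, ← Real.exp_nat_mul]
    apply Real.exp_le_exp.mpr
    have : (e : ℝ) * -(a / (L + 1)) = -(a * e / (L + 1)) := by ring
    rw [this]
    linarith
  have hzt : (z ^ t)⁻¹ - 1 ≤ 2 * (a * t / (L + 1)) := by
    have h1 : (z ^ t)⁻¹ = Real.exp (a * t / (L + 1)) := by
      rw [hz, ← Real.exp_nat_mul, ← Real.exp_neg]
      congr 1
      ring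
    have h2 : (a : ℝ) * t / (L + 1) ≤ 1 := by
      rw [div_le_one hL0]
      exact_mod_cast hLt
    have h3 : (0 : ℝ) ≤ a * t / (L + 1) := by positivity
    have h4 := Real.abs_exp_sub_one_le (x := a * t / (L + 1)) (by rw [abs_of_nonneg h3]; exact h2)
    rw [abs_of_nonneg h3] at h4
    rw [h1]
    exact (le_abs_self _).trans h4
  have hzt0 : 0 ≤ (z ^ t)⁻¹ - 1 := by
    have h1 : z ^ t ≤ 1 := pow_le_one₀ hz0.le hz1.le
    have h2 : 1 ≤ (z ^ t)⁻¹ := (one_le_inv₀ (pow_pos hz0 t)).mpr h1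
    linarith
  -- the sum over the patterns
  have hD : (1 + ((z ^ t)⁻¹ - 1) / κ) ^ D ≤ Real.exp K := by
    have h1 : (1 + ((z ^ t)⁻¹ - 1) / κ) ≤ Real.exp (((z ^ t)⁻¹ - 1) / κ) := by
      have := Real.add_one_le_exp (((z ^ t)⁻¹ - 1) / κ)
      linarith
    have h0 : 0 ≤ 1 + ((z ^ t)⁻¹ - 1) / κ := by positivity
    refine (pow_le_pow_left₀ h0 h1 D).trans ?_
    rw [← Real.exp_nat_mul]
    apply Real.exp_le_exp.mpr
    have h2 : (D : ℝ) * (((z ^ t)⁻¹ - 1) / κ) ≤ D * (2 * (a * t / (L + 1)) / κ) := by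
      gcongr
    refine h2.trans ?_
    have h3 : (D : ℝ) * (2 * (a * t / (L + 1)) / κ) = m / (2 * ((4 * a + 2) * (L + 1))) := by
      have hD0 : (0 : ℝ) < D := by
        have : 1 ≤ D := le_trans hK hKD
        exact_mod_cast this
      rw [hκ, hx]
      field_simp
      ring
    rw [h3, div_le_iff₀ (by positivity)]
    linarith
  have hB := num_bern a ha
  have hpow : ((4 : ℝ) ^ a / 2) ^ K ≤ (2 - z ^ (L + 1)) ^ (2 * a * K) := by
    rw [hzL, pow_mul]
    exact pow_le_pow_left₀ (by positivity) hB K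
  have h4a : Real.exp 3 * κ ≤ 4 ^ a / 2 := by
    have h1 : Real.exp 3 ≤ 81 / 4 := by
      have h2 : Real.exp 3 = Real.exp 1 ^ 3 := by
        rw [← Real.exp_nat_mul]
        norm_num
      rw [h2]
      have h3 := Real.exp_one_lt_d9
      have h4 : Real.exp 1 ^ 3 ≤ 2.7182818286 ^ 3 :=
        pow_le_pow_left₀ (Real.exp_pos 1).le h3.le 3
      refine h4.trans ?_
      norm_num
    calc Real.exp 3 * κ ≤ 81 / 4 * κ := mul_le_mul_of_nonneg_right h1 hκ0.le
      _ = (162 * a * (4 * a + 2) * x) / 2 := by rw [hκ]; ring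
      _ ≤ 4 ^ a / 2 := by linarith
  have h5 : (Real.exp 3 * κ) ^ K ≤ (2 - z ^ (L + 1)) ^ (2 * a * K) :=
    (pow_le_pow_left₀ (by positivity) h4a K).trans hpow
  have h6 : Real.exp (-(K : ℝ)) * (Real.exp 3 * κ) ^ K ≤ r * (κ ^ K * Real.exp K) := by
    calc Real.exp (-(K : ℝ)) * (Real.exp 3 * κ) ^ K
        ≤ z ^ e * (2 - z ^ (L + 1)) ^ (2 * a * K) :=
          mul_le_mul hze h5 (by positivity) (by positivity)
      _ ≤ r * (κ ^ K * (1 + ((z ^ t)⁻¹ - 1) / κ) ^ D) := hmain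
      _ ≤ r * (κ ^ K * Real.exp K) := by gcongr
  have h7 : Real.exp (-(K : ℝ)) * (Real.exp 3 * κ) ^ K =
      Real.exp K * (κ ^ K * Real.exp K) := by
    rw [mul_pow, ← Real.exp_nat_mul]
    have h8 : Real.exp (-(K : ℝ)) * Real.exp (K * 3) = Real.exp K * Real.exp K := by
      rw [← Real.exp_add, ← Real.exp_add]
      congr 1
      ring
    calc Real.exp (-(K : ℝ)) * (Real.exp (K * 3) * κ ^ K)
        = (Real.exp (-(K : ℝ)) * Real.exp (K * 3)) * κ ^ K := by ring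
      _ = _ := by rw [h8]; ring
  rw [h7] at h6
  exact le_of_mul_le_mul_right h6 (by positivity)

theorem PE2 : StmtPE2 := by
  refine ⟨1 / 400000, by norm_num, ?_⟩
  intro m D t e r hm ht hmD hr he hI
  have hm0 : (0 : ℝ) < m := by exact_mod_cast hm
  have ht1 : (1 : ℝ) ≤ t := by exact_mod_cast ht
  have hr1 : (1 : ℝ) ≤ r := by exact_mod_cast hr
  have hx1 : (1 : ℝ) ≤ t * D / m := by
    rw [one_le_div hm0]
    exact_mod_cast hmD
  unfold expon
  obtain ⟨a, ha, hxa, h2a, hal⟩ := num_a (t * D / m) hx1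
  set x : ℝ := t * D / m with hx
  set l : ℝ := Real.log x with hl
  have hl0 : 0 ≤ l := Real.log_nonneg hx1
  have hx0 : 0 < x := by linarith
  have ha1 : (1 : ℝ) ≤ a := by exact_mod_cast ha
  set W : ℝ := t + √x with hW
  have hsx : 0 ≤ √x := Real.sqrt_nonneg x
  have hW1 : 1 ≤ W := by rw [hW]; linarith
  -- the length of the chains
  obtain ⟨L, hL⟩ : ∃ L, L + 1 = max (2 ^ a) (a * t) := by
    refine ⟨max (2 ^ a) (a * t) - 1, ?_⟩
    have : 1 ≤ max (2 ^ a) (a * t) := le_trans Nat.one_le_two_pow (le_max_left _ _)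
    omega
  have hL2 : 2 ^ a ≤ L + 1 := by rw [hL]; exact le_max_left _ _
  have hLt : a * t ≤ L + 1 := by rw [hL]; exact le_max_right _ _
  have hLW : (L : ℝ) + 1 ≤ 63 * a * W := by
    have h1 : ((L + 1 : ℕ) : ℝ) = max ((2 : ℝ) ^ a) (a * t) := by
      rw [hL]
      push_cast
      rfl
    have h2 : (L : ℝ) + 1 = max ((2 : ℝ) ^ a) (a * t) := by
      rw [← h1]
      push_cast
      rfl
    rw [h2]
    apply max_le
    · refine h2a.trans ?_
      have : √x ≤ W := by rw [hW]; linarith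
      gcongr
    · have h3 : (t : ℝ) ≤ W := by rw [hW]; linarith
      have h4 : (a : ℝ) * t ≤ a * W := by gcongr
      nlinarith
  have hβR := num_beta a L hL2
  have hL0 : (0 : ℝ) < (L : ℝ) + 1 := by positivity
  have hβ1 : 1 ≤ beta a L := by
    unfold beta
    have h1 : 1 ≤ (a + 1) * 2 ^ a := Nat.one_le_iff_ne_zero.2 (by positivity)
    omega
  have ha2 : (a : ℝ) ^ 2 ≤ 400 * (1 + l) ^ 2 := by
    have h1 : (a : ℝ) ^ 2 ≤ (20 * (1 + l)) ^ 2 := pow_le_pow_left₀ (by positivity) hal 2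
    calc (a : ℝ) ^ 2 ≤ (20 * (1 + l)) ^ 2 := h1
      _ = 400 * (1 + l) ^ 2 := by ring
  have hSW : (4 * (a : ℝ) + 2) * (L + 1) ≤ 151200 * ((1 + l) ^ 2 * W) := by
    calc (4 * (a : ℝ) + 2) * (L + 1) ≤ (6 * a) * (63 * a * W) := by
          apply mul_le_mul (by linarith) hLW hL0.le (by positivity)
      _ = 378 * a ^ 2 * W := by ring
      _ ≤ 378 * (400 * (1 + l) ^ 2) * W := by gcongr
      _ = 151200 * ((1 + l) ^ 2 * W) := by ring
  have hden : 0 < (1 + l) ^ 2 * W := by positivity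
  set K := m / beta a L with hKdef
  have hKm : K * beta a L ≤ m := Nat.div_mul_le_self _ _
  have hKm2 : m < (K + 1) * beta a L := by
    have h1 := Nat.lt_mul_div_succ m hβ1
    rw [← hKdef] at h1
    rw [mul_comm]
    exact h1
  have hKm2R : (m : ℝ) < (K + 1) * beta a L := by exact_mod_cast hKm2
  rcases Nat.eq_zero_or_pos K with hK0 | hK1
  · -- the trivial case
    rw [hK0] at hKm2R
    have h1 : (m : ℝ) ≤ 151200 * ((1 + l) ^ 2 * W) := by
      have : (m : ℝ) < beta a L := by simpa using hKm2R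
      linarith
    have h2 : 1 / 400000 * ((m : ℝ) / ((1 + l) ^ 2 * W)) ≤ 1 := by
      have h3 : (m : ℝ) / ((1 + l) ^ 2 * W) ≤ 151200 := by
        rw [div_le_iff₀ hden]
        exact h1
      linarith
    calc Real.exp (1 / 400000 * ((m : ℝ) / ((1 + l) ^ 2 * W))) ≤ Real.exp 1 :=
          Real.exp_le_exp.mpr h2
      _ ≤ 3 := by
        have := Real.exp_one_lt_d9
        linarith
      _ ≤ 3 * r := by linarith
  · have hK1R : (1 : ℝ) ≤ K := by exact_mod_cast hK1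
    have hβ0 : (0 : ℝ) < beta a L := by exact_mod_cast hβ1
    have hmK : (m : ℝ) ≤ 2 * K * ((4 * a + 2) * (L + 1)) := by
      calc (m : ℝ) ≤ (K + 1) * beta a L := hKm2R.le
        _ ≤ (2 * K) * beta a L := by
          apply mul_le_mul_of_nonneg_right _ hβ0.le
          linarith
        _ ≤ 2 * K * ((4 * a + 2) * (L + 1)) := by gcongr
    have hKD : K ≤ D := by
      have h1 : L + 1 ≤ beta a L := by
        unfold beta
        have h2 : 1 ≤ (a + 1) * 2 ^ a := Nat.one_le_iff_ne_zero.2 (by positivity)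
        have h3 : L + 1 ≤ a * (L + 1) := Nat.le_mul_of_pos_left _ ha
        omega
      have h2 : t ≤ L + 1 := (Nat.le_mul_of_pos_left t ha).trans hLt
      have h3 : K * t ≤ D * t := by
        calc K * t ≤ K * beta a L := Nat.mul_le_mul_left K (h2.trans h1)
          _ ≤ m := hKm
          _ ≤ t * D := hmD
          _ = D * t := by ring
      exact Nat.le_of_mul_le_mul_right h3 ht
    have hee : ((a : ℝ) * e / (L + 1)) ≤ K := by
      have hl2 : 0 < (1 + l) ^ 2 := by positivity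
      have h1 : (e : ℝ) ≤ 1 / 400000 * (2 * K * (6 * a * (L + 1))) / (1 + l) ^ 2 := by
        refine he.trans ?_
        have h2 : (m : ℝ) ≤ 2 * K * (6 * a * (L + 1)) := by
          refine hmK.trans ?_
          have : 4 * (a : ℝ) + 2 ≤ 6 * a := by linarith
          gcongr
        gcongr
      rw [div_le_iff₀ hL0]
      calc (a : ℝ) * e ≤ a * (1 / 400000 * (2 * K * (6 * a * (L + 1))) / (1 + l) ^ 2) := by
            gcongr
        _ = (12 / 400000) * (a ^ 2 / (1 + l) ^ 2) * (K * (L + 1)) := by ring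
        _ ≤ (12 / 400000) * 400 * (K * (L + 1)) := by
            have h3 : (a : ℝ) ^ 2 / (1 + l) ^ 2 ≤ 400 := by
              rw [div_le_iff₀ hl2]
              exact ha2
            gcongr
        _ ≤ K * (L + 1) := by
            have : 0 ≤ (K : ℝ) * (L + 1) := by positivity
            nlinarith
    have hfin := num_core m D t e r K a L hm ht hmD ha hK1 hKD hKm hL2 hLt hmK hxa hee hI
    have h2 : 1 / 400000 * ((m : ℝ) / ((1 + l) ^ 2 * W)) ≤ K := by
      have h3 : (m : ℝ) / ((1 + l) ^ 2 * W) ≤ 302400 * K := by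
        rw [div_le_iff₀ hden]
        calc (m : ℝ) ≤ 2 * K * ((4 * a + 2) * (L + 1)) := hmK
          _ ≤ 2 * K * (151200 * ((1 + l) ^ 2 * W)) := by gcongr
          _ = 302400 * K * ((1 + l) ^ 2 * W) := by ring
      linarith
    calc Real.exp (1 / 400000 * ((m : ℝ) / ((1 + l) ^ 2 * W))) ≤ Real.exp K :=
          Real.exp_le_exp.mpr h2
      _ ≤ r := hfin
      _ ≤ 3 * r := by linarith

end Pool.Agent.Work.MP_499dc6_lc.D4
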