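import Mathlib
import Pool.Agent.Work.MP_499dc6_lc.D4.Defs
import Pool.Agent.Work.MP_499dc6_lc.TSD.TE1

/-!
# Products of polynomials: the probability that at most `K` diagonal cells are missing
-/

set_option autoImplicit false

namespace Pool.Agent.Work.MP_499dc6_lc.D4

open Pool.Agent.Work.MP_104cea_lc.SumDet
open Pool.Agent.Work.MP_104cea_lc.SDB
open Pool.Agent.Work.MP_499dc6_lc.TSD (cntT thr)
open scoped PowerSeries
open MvPolynomial Finset

/-- Markov's inequality for the number of missing diagonal cells. -/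
theorem pr_Dg (D K : ℕ) (q κ : ℝ) (hq0 : 0 < q) (hq1 : q < 1) (hκ : 1 ≤ κ) :
    pr D q (Dg K) ≤ κ ^ K * (q + (1 - q) / κ) ^ D := by
  classical
  have hκ0 : 0 < κ := by linarith
  have h1q : 0 ≤ 1 - q := by linarith
  -- the product formula
  have hprod : ∏ v : V D, (q + (1 - q) * (if v.1 = v.2 then κ⁻¹ else 1)) =
      (q + (1 - q) / κ) ^ D := by
    rw [Fintype.prod_prod_type]
    have h1 : ∀ i : Fin D, ∏ j : Fin D, (q + (1 - q) * (if i = j then κ⁻¹ else 1)) =
        q + (1 - q) / κ := by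
      intro i
      rw [Finset.prod_eq_single i]
      · rw [if_pos rfl, div_eq_mul_inv]
      · intro b _ hb
        rw [if_neg (Ne.symm hb)]
        ring
      · intro h
        exact absurd (Finset.mem_univ i) h
    simp only [h1]
    rw [Finset.prod_const, Finset.card_univ, Fintype.card_fin]
  rw [← hprod, Finset.prod_add, Finset.mul_sum, Finset.powerset_univ]
  unfold pr
  refine Finset.sum_le_sum fun S _ => ?_
  have hcard : (univ \ S).card = D * D - S.card := by
    rw [Finset.card_sdiff_of_subset (Finset.subset_univ S), Finset.card_univ]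
    simp
  have hw : ∏ v ∈ univ \ S, ((1 - q) * (if v.1 = v.2 then κ⁻¹ else 1)) =
      (1 - q) ^ (D * D - S.card) * κ⁻¹ ^ (D - (univ.filter fun j : Fin D => (j, j) ∈ S).card) := by
    rw [Finset.prod_mul_distrib, Finset.prod_const, hcard]
    congr 1
    rw [Finset.prod_ite, Finset.prod_const, Finset.prod_const_one, mul_one]
    congr 1
    have h2 : ((univ \ S).filter fun v : V D => v.1 = v.2) =
        (univ.filter fun j : Fin D => ¬ (j, j) ∈ S).image (fun j => (j, j)) := by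
      ext ⟨i, j⟩
      simp only [Finset.mem_filter, Finset.mem_sdiff, Finset.mem_univ, true_and, Finset.mem_image,
        Prod.mk.injEq]
      constructor
      · rintro ⟨h3, rfl⟩
        exact ⟨i, h3, rfl, rfl⟩
      · rintro ⟨l, h3, rfl, rfl⟩
        exact ⟨h3, rfl⟩
    rw [h2, Finset.card_image_of_injective _ (fun a b h => (Prod.mk.injEq _ _ _ _ ▸ h).1)]
    have h4 := Finset.card_filter_add_card_filter_not (s := (univ : Finset (Fin D)))
      (fun j : Fin D => (j, j) ∈ S)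
    rw [Finset.card_univ, Fintype.card_fin] at h4
    omega
  rw [Finset.prod_const, hw]
  have hpos : 0 ≤ q ^ S.card * (1 - q) ^ (D * D - S.card) := by positivity
  split_ifs with h
  · have h5 : D - (univ.filter fun j : Fin D => (j, j) ∈ S).card ≤ K := by
      unfold Dg at h
      omega
    have h6 : 1 ≤ κ ^ K * κ⁻¹ ^ (D - (univ.filter fun j : Fin D => (j, j) ∈ S).card) := by
      rw [inv_pow, ← div_eq_mul_inv, one_le_div (by positivity)]
      exact pow_le_pow_right₀ hκ h5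
    calc q ^ S.card * (1 - q) ^ (D * D - S.card)
        = q ^ S.card * (1 - q) ^ (D * D - S.card) * 1 := by ring
      _ ≤ q ^ S.card * (1 - q) ^ (D * D - S.card) *
          (κ ^ K * κ⁻¹ ^ (D - (univ.filter fun j : Fin D => (j, j) ∈ S).card)) :=
          mul_le_mul_of_nonneg_left h6 hpos
      _ = _ := by ring
  · positivity

theorem beta_ge (a L : ℕ) (ha : 1 ≤ a) : L + 1 ≤ beta a L := by
  have h := e1_beta a L
  nlinarith [Nat.mul_le_mul_right (L + 1) ha]

theorem PE1 (hP2 : StmtP2) (hS5 : StmtPS5) (hP1 : TSD.StmtTP1) : StmtPE1 := by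
  intro F _ _ _ m D t e r ht hmn hb K a L z κ hK hKn ha hβ hz0 hz1 hκ
  obtain ⟨ω, hω⟩ : ∃ ω : F, IsPrimitiveRoot ω (a + 1) :=
    HasEnoughRootsOfUnity.exists_primitiveRoot F (a + 1)
  obtain ⟨N, g, ι, hg, hι⟩ := TSD.TE1_inj K a L D
  have hκ0 : 0 < κ := by linarith
  have hβn : K * beta a L ≤ t * D := hβ.trans hmn
  have hj : K + 2 * a * K * (L + 1) ≤ t * D := by
    calc K + 2 * a * K * (L + 1) = K * (1 + 2 * a * (L + 1)) := by ring
      _ ≤ K * beta a L := Nat.mul_le_mul_left K (e1_beta a L)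
      _ ≤ t * D := hβn
  have hq0 : 0 < z ^ t := pow_pos hz0 t
  have hq1 : z ^ t < 1 := pow_lt_one₀ hz0.le hz1 (by omega)
  set j := t * D + e - K - 2 * a * K * (L + 1) with hjd
  have hjs : t * D + e - K = j + (L + 1) * (2 * a * K) := by
    have : 2 * a * K * (L + 1) = (L + 1) * (2 * a * K) := by ring
    omega
  have h1 := hP1 N D ι (Good g) (Dg K) t r j z hι ht hz0 hz1
    (hS5 F m D t e r K a L N ω g ι hω hg hι hK hKn ha ht hβ hmn hb)
  rw [hP2 N K a L g z hg hz0 hz1] at h1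
  have h2 := pr_Dg D K (z ^ t) κ hq0 hq1 hκ
  have h3 : z ^ (t * D + e - K) * (2 - z ^ (L + 1)) ^ (2 * a * K) =
      z ^ j * (2 * z ^ (L + 1) - z ^ (2 * (L + 1))) ^ (2 * a * K) := by
    have : 2 * z ^ (L + 1) - z ^ (2 * (L + 1)) = z ^ (L + 1) * (2 - z ^ (L + 1)) := by ring
    rw [this, mul_pow, hjs, pow_add, pow_mul z (L + 1)]
    ring
  rw [← h3] at h1
  have h4 : z ^ (t * D + e - K) * (2 - z ^ (L + 1)) ^ (2 * a * K) ≤
      r * (κ ^ K * (z ^ t + (1 - z ^ t) / κ) ^ D) :=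
    h1.trans (mul_le_mul_of_nonneg_left h2 (Nat.cast_nonneg r))
  have h5 : (z ^ t + (1 - z ^ t) / κ) ^ D =
      z ^ (t * D) * (1 + ((z ^ t)⁻¹ - 1) / κ) ^ D := by
    rw [pow_mul, ← mul_pow]
    congr 1
    field_simp
  rw [h5] at h4
  have hpow : z ^ (t * D + e) ≤ z ^ (t * D + e - K) :=
    pow_le_pow_of_le_one hz0.le hz1.le (Nat.sub_le _ _)
  have hz2 : z ^ (L + 1) < 1 := pow_lt_one₀ hz0.le hz1 (by omega)
  have hp2 : 0 ≤ (2 - z ^ (L + 1)) ^ (2 * a * K) := by
    apply pow_nonneg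
    linarith
  have h6 : z ^ (t * D + e) * (2 - z ^ (L + 1)) ^ (2 * a * K) ≤
      r * (κ ^ K * (z ^ (t * D) * (1 + ((z ^ t)⁻¹ - 1) / κ) ^ D)) :=
    (mul_le_mul_of_nonneg_right hpow hp2).trans h4
  have hzD : 0 < z ^ (t * D) := pow_pos hz0 _
  rw [pow_add] at h6
  have h7 : z ^ (t * D) * (z ^ e * (2 - z ^ (L + 1)) ^ (2 * a * K)) ≤
      z ^ (t * D) * (r * (κ ^ K * (1 + ((z ^ t)⁻¹ - 1) / κ) ^ D)) := by
    calc z ^ (t * D) * (z ^ e * (2 - z ^ (L + 1)) ^ (2 * a * K))
        = z ^ (t * D) * z ^ e * (2 - z ^ (L + 1)) ^ (2 * a * K) := by ring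
      _ ≤ _ := h6
      _ = _ := by ring
  exact le_of_mul_le_mul_left h7 hzD

end Pool.Agent.Work.MP_499dc6_lc.D4
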