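import Mathlib
import Pool.Agent.Work.MP_499dc6_lc.D4.Defs
import Pool.Agent.Work.MP_499dc6_lc.TSD.M3
import Pool.Agent.Work.MP_499dc6_lc.TSD.M0

/-!
# Products of polynomials: the dimension of the span of the products with `K` factors missing
-/

set_option autoImplicit false

namespace Pool.Agent.Work.MP_499dc6_lc.D4

open Pool.Agent.Work.MP_104cea_lc.SumDet
open Pool.Agent.Work.MP_104cea_lc.SDB
open Pool.Agent.Work.MP_499dc6_lc.TSD (cntT thr)
open MvPolynomial Finset

namespace U

variable {F : Type} [Field F] {N D : ℕ}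

/-- The remainders of the exponents modulo `t` at the cells `κ j`. -/
noncomputable def resP (κ : Fin D → V N) (t : ℕ) (T : V N →₀ ℕ) : V N →₀ ℕ :=
  Finsupp.equivFunOnFinite.symm fun w => if ∃ j, κ j = w then T w % t else T w

/-- The element of the basis attached to an exponent. -/
noncomputable def basP (κ : Fin D → V N) (t : ℕ) (Q : Fin D → MvPolynomial (V N) F)
    (T : V N →₀ ℕ) : MvPolynomial (V N) F :=
  monomial (resP κ t T) 1 * ∏ j, Q j ^ (T (κ j) / t)

theorem resP_at (κ : Fin D → V N) (t : ℕ) (T : V N →₀ ℕ) (j : Fin D) :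
    resP κ t T (κ j) = T (κ j) % t := by
  unfold resP
  simp

theorem resP_off (κ : Fin D → V N) (t : ℕ) (T : V N →₀ ℕ) (w : V N) (h : ¬ ∃ j, κ j = w) :
    resP κ t T w = T w := by
  unfold resP
  simp only [Finsupp.equivFunOnFinite_symm_apply_apply, if_neg h]

theorem sum_single (κ : Fin D → V N) (hκ : Function.Injective κ) (S : Finset (Fin D))
    (f : Fin D → ℕ) (j : Fin D) :
    (∑ i ∈ S, Finsupp.single (κ i) (f i)) (κ j) = if j ∈ S then f j else 0 := by
  rw [Finsupp.finsetSum_apply]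
  by_cases hj : j ∈ S
  · rw [if_pos hj, Finset.sum_eq_single j]
    · rw [Finsupp.single_eq_same]
    · intro b _ hb
      rw [Finsupp.single_eq_of_ne]
      intro hc
      exact hb (hκ hc.symm)
    · intro hc
      exact absurd hj hc
  · rw [if_neg hj, Finset.sum_eq_zero]
    intro b hb
    rw [Finsupp.single_eq_of_ne]
    intro hc
    exact hj (hκ hc ▸ hb)

theorem sum_single_off (κ : Fin D → V N) (S : Finset (Fin D))
    (f : Fin D → ℕ) (w : V N) (h : ¬ ∃ j, κ j = w) :
    (∑ i ∈ S, Finsupp.single (κ i) (f i)) w = 0 := by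
  rw [Finsupp.finsetSum_apply]
  apply Finset.sum_eq_zero
  intro b _
  rw [Finsupp.single_eq_of_ne]
  intro hc
  exact h ⟨b, hc.symm⟩

theorem resP_add (κ : Fin D → V N) (hκ : Function.Injective κ) (t : ℕ) (T : V N →₀ ℕ) :
    resP κ t T + ∑ j, Finsupp.single (κ j) (t * (T (κ j) / t)) = T := by
  ext w
  rw [Finsupp.add_apply]
  by_cases h : ∃ j, κ j = w
  · obtain ⟨j, rfl⟩ := h
    rw [resP_at, sum_single κ hκ, if_pos (Finset.mem_univ j)]
    exact Nat.mod_add_div _ _
  · rw [resP_off κ t T w h, sum_single_off κ _ _ w h, add_zero]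

theorem basP_X (κ : Fin D → V N) (hκ : Function.Injective κ) (t : ℕ) (T : V N →₀ ℕ) :
    basP κ t (fun j => (X (κ j) ^ t : MvPolynomial (V N) F)) T = monomial T 1 := by
  unfold basP
  have h1 : ∏ j, (X (κ j) ^ t : MvPolynomial (V N) F) ^ (T (κ j) / t) =
      monomial (∑ j, Finsupp.single (κ j) (t * (T (κ j) / t))) (1 : F) := by
    rw [monomial_sum_one]
    refine Finset.prod_congr rfl fun v _ => ?_
    rw [← pow_mul, X_pow_eq_monomial]
  rw [h1, monomial_mul, mul_one, resP_add κ hκ t T]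

theorem basP_hom (κ : Fin D → V N) (hκ : Function.Injective κ) {t s : ℕ}
    {Q : Fin D → MvPolynomial (V N) F} (hQ : ∀ j, (Q j).IsHomogeneous t) (T : V N →₀ ℕ)
    (hT : T.degree = s) : (basP κ t Q T).IsHomogeneous s := by
  unfold basP
  have h1 := isHomogeneous_monomial (1 : F) (rfl : (resP κ t T).degree = (resP κ t T).degree)
  have h2 : (∏ j, Q j ^ (T (κ j) / t)).IsHomogeneous (∑ j, t * (T (κ j) / t)) :=
    IsHomogeneous.prod _ _ _ fun j _ => (hQ j).pow _
  have h3 := h1.mul h2
  have h4 := congrArg Finsupp.degree (resP_add κ hκ t T)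
  rw [map_add, map_sum] at h4
  simp only [Finsupp.degree_single] at h4
  rw [h4, hT] at h3
  exact h3

theorem basP_add (κ : Fin D → V N) (hκ : Function.Injective κ) {t : ℕ} (ht : 1 ≤ t)
    (Q : Fin D → MvPolynomial (V N) F) (T : V N →₀ ℕ) (S : Finset (Fin D)) :
    basP κ t Q T * ∏ j ∈ S, Q j = basP κ t Q (T + ∑ j ∈ S, Finsupp.single (κ j) t) := by
  unfold basP
  have h1 : resP κ t (T + ∑ j ∈ S, Finsupp.single (κ j) t) = resP κ t T := by
    ext w
    by_cases h : ∃ j, κ j = w
    · obtain ⟨j, rfl⟩ := h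
      rw [resP_at, resP_at, Finsupp.add_apply, sum_single κ hκ S (fun _ => t) j]
      split_ifs
      · rw [Nat.add_mod_right]
      · rw [add_zero]
    · rw [resP_off κ t _ w h, resP_off κ t _ w h, Finsupp.add_apply,
        sum_single_off κ S (fun _ => t) w h, add_zero]
  have h2 : ∀ j, (T + ∑ i ∈ S, Finsupp.single (κ i) t) (κ j) / t =
      T (κ j) / t + if j ∈ S then 1 else 0 := by
    intro j
    rw [Finsupp.add_apply, sum_single κ hκ S (fun _ => t) j]
    split_ifs
    · rw [Nat.add_div_right _ ht]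
    · simp
  rw [h1, mul_assoc]
  congr 1
  simp only [h2, pow_add, Finset.prod_mul_distrib]
  congr 1
  rw [← Finset.prod_filter_mul_prod_filter_not Finset.univ (fun j => j ∈ S)]
  have h3 : ∏ j ∈ Finset.univ.filter (fun j => j ∈ S), Q j ^ (if j ∈ S then 1 else 0) =
      ∏ j ∈ S, Q j := by
    have h5 : Finset.univ.filter (fun j => j ∈ S) = S := by
      ext j
      simp
    rw [h5]
    refine Finset.prod_congr rfl fun j hj => ?_
    rw [if_pos hj, pow_one]
  have h4 : ∏ j ∈ Finset.univ.filter (fun j => ¬ j ∈ S), Q j ^ (if j ∈ S then 1 else 0) = 1 := by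
    refine Finset.prod_eq_one fun j hj => ?_
    rw [Finset.mem_filter] at hj
    rw [if_neg hj.2, pow_zero]
  rw [h3, h4, mul_one]

theorem mem_expo (s : ℕ) (T : V N →₀ ℕ) : T ∈ expo N s ↔ T.degree = s := by
  rw [expo, mem_finsuppAntidiag, Finsupp.degree_eq_sum]
  constructor
  · exact fun h => h.1
  · exact fun h => ⟨h, Finset.subset_univ _⟩

/-- The elements of the basis span the monomials. -/
theorem span_basP (κ : Fin D → V N) (hκ : Function.Injective κ) {t s : ℕ}
    {Q : Fin D → MvPolynomial (V N) F} (hQ : ∀ j, (Q j).IsHomogeneous t)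
    (hli : LinearIndependent F (fun T : {T : V N →₀ ℕ // T ∈ expo N s} => basP κ t Q T.1))
    (A : V N →₀ ℕ) (hA : A.degree = s) :
    (monomial A 1 : MvPolynomial (V N) F) ∈ Submodule.span F
      (Set.range (fun T : {T : V N →₀ ℕ // T ∈ expo N s} => basP κ t Q T.1)) := by
  set W : Submodule F (MvPolynomial (V N) F) := Submodule.span F
    (Set.range (fun T : {T : V N →₀ ℕ // T ∈ expo N s} => (monomial T.1 1 :
      MvPolynomial (V N) F))) with hW
  set B : Submodule F (MvPolynomial (V N) F) := Submodule.span F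
    (Set.range (fun T : {T : V N →₀ ℕ // T ∈ expo N s} => basP κ t Q T.1)) with hB
  have hfd : FiniteDimensional F W := FiniteDimensional.span_of_finite F (Set.finite_range _)
  have hle : B ≤ W := by
    rw [hB, Submodule.span_le]
    rintro _ ⟨T, rfl⟩
    have hh := basP_hom κ hκ hQ T.1 ((mem_expo s T.1).mp T.2)
    rw [SetLike.mem_coe]
    change basP κ t Q T.1 ∈ W
    rw [(basP κ t Q T.1).as_sum]
    refine Submodule.sum_mem _ fun b hb => ?_
    have h1 : b.degree = s := by
      by_contra h2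
      exact (mem_support_iff.1 hb) (hh.coeff_eq_zero h2)
    have h2 : monomial b (coeff b (basP κ t Q T.1)) =
        coeff b (basP κ t Q T.1) • (monomial b 1 : MvPolynomial (V N) F) := by
      rw [smul_monomial, smul_eq_mul, mul_one]
    rw [h2]
    exact Submodule.smul_mem _ _ (Submodule.subset_span ⟨⟨b, (mem_expo s b).mpr h1⟩, rfl⟩)
  have hfr : Module.finrank F W ≤ Module.finrank F B := by
    rw [hB, finrank_span_eq_card hli]
    exact finrank_range_le_card _
  have heq : B = W := Submodule.eq_of_le_of_finrank_le hle hfr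
  rw [heq]
  exact Submodule.subset_span ⟨⟨A, (mem_expo s A).mpr hA⟩, rfl⟩

open scoped Classical in
theorem le_basP (ι : V D → V N) (hι : Function.Injective ι) {t s K : ℕ} (ht : 1 ≤ t)
    {Q : Fin D → MvPolynomial (V N) F} (hQ : ∀ j, (Q j).IsHomogeneous t)
    (hli : LinearIndependent F (fun T : {T : V N →₀ ℕ // T ∈ expo N s} =>
      basP (fun j => ι (j, j)) t Q T.1)) :
    ProdSpan Q K s ≤ Submodule.span F
      ((((expo N (s + t * (D - K))).filter fun T => Dg K (thr ι t T)).image
        (basP (fun j => ι (j, j)) t Q) : Finset (MvPolynomial (V N) F)) :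
          Set (MvPolynomial (V N) F)) := by
  have hκ : Function.Injective (fun j : Fin D => ι (j, j)) := fun a b h => by
    have := hι h
    exact (Prod.mk.injEq _ _ _ _ ▸ this).1
  unfold ProdSpan
  rw [Submodule.span_le]
  rintro _ ⟨A, J, hA, hJ, rfl⟩
  rw [SetLike.mem_coe]
  have h1 := span_basP (fun j => ι (j, j)) hκ hQ hli A hA
  have hcard : Jᶜ.card = D - K := by
    rw [Finset.card_compl, Fintype.card_fin, hJ]
  revert h1
  generalize (monomial A 1 : MvPolynomial (V N) F) = y
  intro h1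
  induction h1 using Submodule.span_induction with
  | mem x hx =>
    obtain ⟨T, rfl⟩ := hx
    refine Submodule.subset_span ?_
    rw [Finset.mem_coe, Finset.mem_image]
    refine ⟨T.1 + ∑ j ∈ Jᶜ, Finsupp.single (ι (j, j)) t, ?_, ?_⟩
    · rw [Finset.mem_filter, mem_expo]
      constructor
      · rw [map_add, map_sum, (mem_expo s T.1).mp T.2]
        simp only [Finsupp.degree_single, Finset.sum_const, smul_eq_mul]
        rw [hcard, mul_comm]
      · unfold Dg
        rw [← hcard]
        refine Finset.card_le_card fun j hj => ?_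
        rw [Finset.mem_filter]
        refine ⟨Finset.mem_univ _, ?_⟩
        rw [thr, Finset.mem_filter]
        refine ⟨Finset.mem_univ _, ?_⟩
        rw [Finsupp.add_apply, sum_single (fun j => ι (j, j)) hκ Jᶜ (fun _ => t) j, if_pos hj]
        exact Nat.le_add_left _ _
    · exact (basP_add (fun j => ι (j, j)) hκ ht Q T.1 Jᶜ).symm
  | zero => rw [zero_mul]; exact Submodule.zero_mem _
  | add x y _ _ hx hy => rw [add_mul]; exact Submodule.add_mem _ hx hy
  | smul a x _ hx => rw [smul_mul_assoc]; exact Submodule.smul_mem _ _ hx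

theorem fd (Q : Fin D → MvPolynomial (V N) F) (K s : ℕ) :
    FiniteDimensional F (ProdSpan Q K s) := by
  unfold ProdSpan
  apply FiniteDimensional.span_of_finite
  have hfin : (Set.range (fun x : {T : V N →₀ ℕ // T ∈ expo N s} × Finset (Fin D) =>
      (monomial x.1.1 1 * ∏ j ∈ x.2ᶜ, Q j : MvPolynomial (V N) F))).Finite := Set.finite_range _
  refine hfin.subset ?_
  rintro p ⟨A, J, hA, -, rfl⟩
  exact ⟨(⟨A, (mem_expo s A).mpr hA⟩, J), rfl⟩

/-- The deformation with polynomial coefficients. -/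
noncomputable def dfm (Q₀ Q₁ : Fin D → MvPolynomial (V N) F) (j : Fin D) :
    MvPolynomial (V N) (Polynomial F) :=
  map Polynomial.C (Q₀ j) + C Polynomial.X * map Polynomial.C (Q₁ j)

theorem dfm_eval (Q₀ Q₁ : Fin D → MvPolynomial (V N) F) (a : F) (j : Fin D) :
    map (Polynomial.evalRingHom a) (dfm Q₀ Q₁ j) = Q₀ j + C a * Q₁ j := by
  unfold dfm
  rw [map_add, map_mul, map_C, TSD.M3aux.eval_C, TSD.M3aux.eval_C]
  simp

theorem bas_eval (κ : Fin D → V N) (t : ℕ) (Q₀ Q₁ : Fin D → MvPolynomial (V N) F) (a : F)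
    (T : V N →₀ ℕ) :
    map (Polynomial.evalRingHom a)
      (monomial (resP κ t T) 1 * ∏ j, dfm Q₀ Q₁ j ^ (T (κ j) / t)) =
      basP κ t (fun j => Q₀ j + C a * Q₁ j) T := by
  unfold basP
  rw [map_mul, map_monomial, map_one, map_prod]
  congr 1
  refine Finset.prod_congr rfl fun v _ => ?_
  rw [map_pow, dfm_eval]

theorem gen_eval (Q₀ Q₁ : Fin D → MvPolynomial (V N) F) (a : F) (A : V N →₀ ℕ)
    (J : Finset (Fin D)) :
    map (Polynomial.evalRingHom a) (monomial A 1 * ∏ j ∈ Jᶜ, dfm Q₀ Q₁ j) =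
      monomial A 1 * ∏ j ∈ Jᶜ, (Q₀ j + C a * Q₁ j) := by
  rw [map_mul, map_monomial, map_one, map_prod]
  congr 1
  refine Finset.prod_congr rfl fun v _ => ?_
  rw [dfm_eval]

theorem deform [CharZero F] (κ : Fin D → V N) (hκ : Function.Injective κ) {t s K : ℕ}
    {Q : Fin D → MvPolynomial (V N) F} (hQ : ∀ j, (Q j).IsHomogeneous t) :
    ∃ Q' : Fin D → MvPolynomial (V N) F, (∀ j, (Q' j).IsHomogeneous t) ∧
      LinearIndependent F (fun T : {T : V N →₀ ℕ // T ∈ expo N s} => basP κ t Q' T.1) ∧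
      Module.finrank F (ProdSpan Q K s) ≤ Module.finrank F (ProdSpan Q' K s) := by
  have h0 := TSD.M0
  have hb1 := h0 F (V N) {T : V N →₀ ℕ // T ∈ expo N s}
    (fun T => monomial (resP κ t T.1) 1 *
      ∏ j, dfm (fun j => X (κ j) ^ t) Q j ^ (T.1 (κ j) / t)) (by
      simp only [bas_eval]
      have h1 : (fun T : {T : V N →₀ ℕ // T ∈ expo N s} =>
          basP κ t (fun j => X (κ j) ^ t + C (0 : F) * Q j) T.1) = fun T => monomial T.1 1 := by
        funext T
        have h3 : (fun j => X (κ j) ^ t + C (0 : F) * Q j) = fun j => X (κ j) ^ t := by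
          funext j
          rw [C_0, zero_mul, add_zero]
        rw [h3, basP_X κ hκ t T.1]
      rw [h1]
      have h2 := (basisMonomials (V N) F).linearIndependent
      rw [coe_basisMonomials] at h2
      exact h2.comp _ Subtype.val_injective)
  have hfdQ : Module.Finite F (Submodule.span F {p : MvPolynomial (V N) F |
      ∃ (A : V N →₀ ℕ) (J : Finset (Fin D)), A.degree = s ∧ J.card = K ∧
        p = monomial A 1 * ∏ j ∈ Jᶜ, Q j}) := fd Q K s
  obtain ⟨f, hf1, hf2, hf3⟩ := Submodule.exists_fun_fin_finrank_span_eq F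
    {p : MvPolynomial (V N) F | ∃ (A : V N →₀ ℕ) (J : Finset (Fin D)), A.degree = s ∧
      J.card = K ∧ p = monomial A 1 * ∏ j ∈ Jᶜ, Q j}
  choose A J hA hJ hf using hf1
  have hb2 := h0 F (V N) (Fin (Module.finrank F (ProdSpan Q K s)))
    (fun i => monomial (A i) 1 * ∏ j ∈ (J i)ᶜ, dfm Q (fun j => X (κ j) ^ t) j) (by
      simp only [gen_eval]
      have h1 : (fun i => (monomial (A i) 1 * ∏ j ∈ (J i)ᶜ, (Q j + C (0 : F) * X (κ j) ^ t) :
          MvPolynomial (V N) F)) = f := by
        funext i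
        rw [hf i]
        congr 1
        refine Finset.prod_congr rfl fun j _ => ?_
        rw [C_0, zero_mul, add_zero]
      exact h1 ▸ hf3)
  have hfin : (({a : F | ¬ LinearIndependent F (fun T : {T : V N →₀ ℕ // T ∈ expo N s} =>
      map (Polynomial.evalRingHom a) (monomial (resP κ t T.1) 1 *
        ∏ j, dfm (fun j => X (κ j) ^ t) Q j ^ (T.1 (κ j) / t)))} ∪
      (fun a : F => a⁻¹) ⁻¹' {b : F | ¬ LinearIndependent F
        (fun i => map (Polynomial.evalRingHom b) (monomial (A i) 1 *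
          ∏ j ∈ (J i)ᶜ, dfm Q (fun j => X (κ j) ^ t) j))}) ∪
      {0}).Finite :=
    (hb1.union (hb2.preimage inv_injective.injOn)).union (Set.finite_singleton 0)
  obtain ⟨a, ha⟩ := hfin.infinite_compl.nonempty
  simp only [Set.mem_compl_iff, Set.mem_union, Set.mem_singleton_iff, Set.mem_preimage,
    not_or] at ha
  obtain ⟨⟨ha1, ha2⟩, ha0⟩ := ha
  have ha1' : LinearIndependent F (fun T : {T : V N →₀ ℕ // T ∈ expo N s} =>
      map (Polynomial.evalRingHom a) (monomial (resP κ t T.1) 1 *
        ∏ j, dfm (fun j => X (κ j) ^ t) Q j ^ (T.1 (κ j) / t))) := by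
    by_contra hc
    exact ha1 hc
  have ha2' : LinearIndependent F
      (fun i => map (Polynomial.evalRingHom a⁻¹) (monomial (A i) 1 *
          ∏ j ∈ (J i)ᶜ, dfm Q (fun j => X (κ j) ^ t) j)) := by
    by_contra hc
    exact ha2 hc
  simp only [bas_eval] at ha1'
  simp only [gen_eval] at ha2'
  refine ⟨fun j => X (κ j) ^ t + C a * Q j, ?_, ha1', ?_⟩
  · intro j
    have h2 := (isHomogeneous_X F (κ j)).pow t
    rw [one_mul] at h2
    refine h2.add ?_
    have h1 : (C a * Q j).IsHomogeneous (0 + t) :=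
      (isHomogeneous_C (V N) a).mul (hQ j)
    rw [zero_add] at h1
    exact h1
  · have hfd := fd (fun j => X (κ j) ^ t + C a * Q j) K s
    have hQ' : ∀ j, Q j + C a⁻¹ * X (κ j) ^ t = C a⁻¹ * (X (κ j) ^ t + C a * Q j) := by
      intro j
      rw [mul_add, ← mul_assoc, ← C_mul, inv_mul_cancel₀ ha0, C_1, one_mul, add_comm]
    have hmem : ∀ i, (monomial (A i) 1 * ∏ j ∈ (J i)ᶜ, (Q j + C a⁻¹ * X (κ j) ^ t) :
        MvPolynomial (V N) F) ∈ ProdSpan (fun j => X (κ j) ^ t + C a * Q j) K s := by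
      intro i
      simp only [hQ']
      rw [Finset.prod_mul_distrib, Finset.prod_const, ← C_pow]
      have h1 : (monomial (A i) 1 * (C (a⁻¹ ^ (J i)ᶜ.card) *
          ∏ j ∈ (J i)ᶜ, (X (κ j) ^ t + C a * Q j)) : MvPolynomial (V N) F) =
          (a⁻¹ ^ (J i)ᶜ.card) •
            (monomial (A i) 1 * ∏ j ∈ (J i)ᶜ, (X (κ j) ^ t + C a * Q j)) := by
        rw [smul_eq_C_mul]
        ring
      rw [h1]
      exact Submodule.smul_mem _ _ (Submodule.subset_span ⟨A i, J i, hA i, hJ i, rfl⟩)
    have hli : LinearIndependent F (fun i => (⟨_, hmem i⟩ :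
        ProdSpan (fun j => X (κ j) ^ t + C a * Q j) K s)) := by
      apply LinearIndependent.of_comp
        (ProdSpan (fun j => X (κ j) ^ t + C a * Q j) K s).subtype
      exact ha2'
    have hcard := hli.fintype_card_le_finrank
    rwa [Fintype.card_fin] at hcard

end U

theorem upper : StmtU := by
  classical
  intro F _ _ N D K t s ι Q ht hK hι hQ
  refine ⟨U.fd Q K s, ?_⟩
  have hκ : Function.Injective (fun j : Fin D => ι (j, j)) := fun a b h => by
    have := hι h
    exact (Prod.mk.injEq _ _ _ _ ▸ this).1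
  obtain ⟨Q', hQ', hli, hle⟩ := U.deform (fun j => ι (j, j)) hκ (s := s) (K := K) hQ
  refine hle.trans ?_
  have h1 := U.le_basP ι hι (K := K) ht hQ' hli
  have h2 := Submodule.finrank_mono h1
  refine h2.trans ((finrank_span_finset_le_card _).trans ?_)
  refine Finset.card_image_le.trans ?_
  unfold cntT
  exact le_of_eq (by congr)

end Pool.Agent.Work.MP_499dc6_lc.D4
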