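import Mathlib
import Pool.Agent.Work.MP_499dc6_lc.D4.Alg
import Pool.Agent.Work.MP_499dc6_lc.D4.Up
import Pool.Agent.Work.MP_499dc6_lc.D4.Cmp
import Pool.Agent.Work.MP_499dc6_lc.D4.Prob
import Pool.Agent.Work.MP_499dc6_lc.D4.Num
import Pool.Agent.Work.MP_499dc6_lc.TSD.TP1
import Pool.Agent.Work.MP_104cea_lc.Bd.B05
import Pool.Agent.Work.MP_104cea_lc.Bd.B06

/-!
# Products of polynomials: assembly
-/

set_option autoImplicit false

namespace Pool.Agent.Work.MP_499dc6_lc.D4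

open Pool.Agent.Work.MP_104cea_lc

theorem final : StmtPMain := by
  have hG4 : SDB.StmtG4 := SDB.G4 (SDB.G2 SDB.G1) SDB.G3
  have hS5 : StmtPS5 := PS5 upper hG4 (SDB.S3 SumDet.A1 SDB.S2) PS1 PS4
  exact Main (PE1 SDB.P2 hS5 TSD.TP1) PE2 PE3

end Pool.Agent.Work.MP_499dc6_lc.D4
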