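import Mathlib
import Pool.Agent.Work.MP_499dc6_lc.D4.Final
import Pool.Agent.Work.MP_499dc6_lc.TSD.M0
import Pool.Agent.Work.MP_499dc6_lc.TSD.M1
import Pool.Agent.Work.MP_499dc6_lc.TSD.M2
import Pool.Agent.Work.MP_499dc6_lc.TSD.M3
import Pool.Agent.Work.MP_499dc6_lc.TSD.TS1
import Pool.Agent.Work.MP_499dc6_lc.TSD.TS4
import Pool.Agent.Work.MP_499dc6_lc.TSD.TS5
import Pool.Agent.Work.MP_499dc6_lc.TSD.TP1
import Pool.Agent.Work.MP_499dc6_lc.TSD.TE1
import Pool.Agent.Work.MP_499dc6_lc.TSD.TE2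
import Pool.Agent.Work.MP_499dc6_lc.TSD.TE3
import Pool.Agent.Work.MP_104cea_lc.SDB.All

/-!
# Sums of products of determinants

If the permanent of size `m` is a (border) sum of `r` terms `q * ∏ j, det (A j)`, with `D`
matrices `A j` of size `ν × ν` whose entries are polynomials of degree at most `t`, and `q` of
small degree, then with `x = t ν D / m ≥ 1`
`3 r ≥ exp (c m / ((1 + log x) ^ 2 min (t + x (1 + log x)) (t ν + √ x)))`.
-/

set_option autoImplicit false

namespace Pool.Agent.Work.MP_499dc6_lc.D4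

open Pool.Agent.Work.MP_104cea_lc.SumDet
open Pool.Agent.Work.MP_104cea_lc
open scoped PowerSeries
open MvPolynomial Finset

/-- The theorem on sums of determinants of matrices of polynomials of degree at most `t`. -/
theorem tsd : TSD.StmtTMain := by
  have hB5 : SumDet.StmtB5 := SumDet.B5 SumDet.B3 SumDet.B4a SumDet.B4b
  have hB6 : SumDet.StmtB6 := SumDet.B6 SumDet.B2 hB5
  have hG4 : SDB.StmtG4 := SDB.G4 (SDB.G2 SDB.G1) SDB.G3
  have hM4 : TSD.StmtM4 := TSD.M4_of (TSD.M2 TSD.M1 hB6) (TSD.M3 TSD.M0)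
  have hS5 : TSD.StmtTS5 := TSD.TS5 hM4 hG4 (SDB.S3 SumDet.A1 SDB.S2) TSD.TS1 TSD.TS4
  exact TSD.Main (TSD.TE1 SumDet.D2 SDB.P2 hS5 TSD.TP1) TSD.TE2 TSD.TE3

/-- `perm_m` is, up to `ε R` with `R` over `k[[ε]]`, a sum of `r` terms `q * ∏ j, det (A j)` over
the field `k((ε))`, where `q` has degree at most `e` and the `D` matrices `A j` are `ν × ν`
matrices of polynomials of degree at most `t`. -/
def BorderProdDetSum (k : Type) [Field k] (m D ν t e r : ℕ) : Prop :=
  ∃ (q : Fin r → MvPolynomial (V m) (LaurentSeries k))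
    (A : Fin r → Fin D → Matrix (Fin ν) (Fin ν) (MvPolynomial (V m) (LaurentSeries k)))
    (R : MvPolynomial (V m) k⟦X⟧),
    (∀ s, (q s).totalDegree ≤ e) ∧ (∀ s j a b, (A s j a b).totalDegree ≤ t) ∧
    ∑ s, q s * ∏ j, (A s j).det =
      map (algebraMap k⟦X⟧ (LaurentSeries k))
        ((gen m k⟦X⟧).permanent + C PowerSeries.X * R)

theorem totalDegree_det_le {σ F : Type} [Field F] {n t : ℕ}
    (M : Matrix (Fin n) (Fin n) (MvPolynomial σ F)) (h : ∀ i j, (M i j).totalDegree ≤ t) :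
    M.det.totalDegree ≤ t * n := by
  rw [Matrix.det_apply]
  apply totalDegree_finsetSum_le
  intro p _
  refine (totalDegree_smul_le _ _).trans ?_
  refine (totalDegree_finset_prod _ _).trans ?_
  calc ∑ i, (M (p i) i).totalDegree ≤ ∑ _i : Fin n, t := Finset.sum_le_sum fun i _ => h _ _
    _ = t * n := by simp [mul_comm]

/-- The product of the determinants as one determinant. -/
theorem toDet {k : Type} [Field k] {m D ν t e r : ℕ} (h : BorderProdDetSum k m D ν t e r) :
    TSD.BorderPDetSum k m (ν * D) t e r := by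
  obtain ⟨q, A, R, hq, hA, hid⟩ := h
  refine ⟨q, fun s => Matrix.reindex finProdFinEquiv finProdFinEquiv
    (Matrix.blockDiagonal (A s)), R, hq, ?_, ?_⟩
  · intro s i j
    change (Matrix.blockDiagonal (A s) (finProdFinEquiv.symm i)
      (finProdFinEquiv.symm j)).totalDegree ≤ t
    rw [Matrix.blockDiagonal_apply]
    split_ifs
    · exact hA _ _ _ _
    · rw [totalDegree_zero]
      exact Nat.zero_le _
  · rw [← hid]
    refine Finset.sum_congr rfl fun s _ => ?_
    rw [Matrix.det_reindex_self, Matrix.det_blockDiagonal]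

/-- The determinants as polynomials of degree at most `t ν`. -/
theorem toProd {k : Type} [Field k] {m D ν t e r : ℕ} (h : BorderProdDetSum k m D ν t e r) :
    BorderProdSum k m D (t * ν) e r := by
  obtain ⟨q, A, R, hq, hA, hid⟩ := h
  exact ⟨q, fun s j => (A s j).det, R, hq, fun s j => totalDegree_det_le _ (hA s j), hid⟩

/-- The common theorem. -/
theorem unify : ∃ c : ℝ, 0 < c ∧ ∀ (k : Type) [Field k] [CharZero k] (m D ν t e r : ℕ) (x : ℝ),
    1 ≤ m → x = t * ν * D / m → 1 ≤ x → (e : ℝ) ≤ c * m / (1 + Real.log x) ^ 2 →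
    BorderProdDetSum k m D ν t e r →
    Real.exp (c * m / ((1 + Real.log x) ^ 2 *
      min (t + x * (1 + Real.log x)) (t * ν + √x))) ≤ 3 * r := by
  obtain ⟨c₁, hc₁, h₁⟩ := tsd
  obtain ⟨c₂, hc₂, h₂⟩ := final
  refine ⟨min c₁ c₂, lt_min hc₁ hc₂, ?_⟩
  intro k _ _ m D ν t e r x hm hx hx1 he hb
  have hm0 : (0 : ℝ) < m := by exact_mod_cast hm
  have hl : 0 ≤ Real.log x := Real.log_nonneg hx1
  have hx0 : 0 < x := by linarith
  have hmxR : (m : ℝ) ≤ t * ν * D := by
    rw [hx, one_le_div hm0] at hx1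
    exact hx1
  have hmx : m ≤ t * ν * D := by exact_mod_cast hmxR
  have htνD : 0 < t * ν * D := lt_of_lt_of_le hm hmx
  have ht : 1 ≤ t := Nat.pos_of_ne_zero fun h => by simp [h] at htνD
  have hν : 1 ≤ ν := Nat.pos_of_ne_zero fun h => by simp [h] at htνD
  have hsx : 0 ≤ √x := Real.sqrt_nonneg x
  have ht1 : (1 : ℝ) ≤ t := by exact_mod_cast ht
  have hν1 : (1 : ℝ) ≤ ν := by exact_mod_cast hν
  have hl2 : 0 < (1 + Real.log x) ^ 2 := by positivity
  have hc : 0 < min c₁ c₂ := lt_min hc₁ hc₂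
  rcases le_total (t + x * (1 + Real.log x)) (t * ν + √x) with hcase | hcase
  · rw [min_eq_left hcase]
    have hx' : (t : ℝ) * ((ν * D : ℕ) : ℝ) / m = x := by
      rw [hx]
      push_cast
      ring
    have h := h₁ k m (ν * D) t e r hm ht (by rw [← mul_assoc]; exact hmx) (by
      rw [hx']
      refine he.trans ?_
      have : min c₁ c₂ ≤ c₁ := min_le_left _ _
      gcongr) (toDet hb)
    refine le_trans (Real.exp_le_exp.mpr ?_) h
    unfold TSD.expon
    rw [hx', mul_div_assoc]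
    have hpos : 0 ≤ (m : ℝ) / ((1 + Real.log x) ^ 2 * (t + x * (1 + Real.log x))) := by
      positivity
    exact mul_le_mul_of_nonneg_right (min_le_left _ _) hpos
  · rw [min_eq_right hcase]
    have hx' : ((t * ν : ℕ) : ℝ) * D / m = x := by
      rw [hx]
      push_cast
      ring
    have h := h₂ k m D (t * ν) e r hm (Nat.mul_pos ht hν) hmx (by
      rw [hx']
      refine he.trans ?_
      have : min c₁ c₂ ≤ c₂ := min_le_right _ _
      gcongr) (toProd hb)
    refine le_trans (Real.exp_le_exp.mpr ?_) h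
    unfold expon
    rw [hx', mul_div_assoc]
    have hcast : ((t * ν : ℕ) : ℝ) = t * ν := by push_cast; ring
    rw [hcast]
    have hpos : 0 ≤ (m : ℝ) / ((1 + Real.log x) ^ 2 * (t * ν + √x)) := by
      positivity
    exact mul_le_mul_of_nonneg_right (min_le_right _ _) hpos

end Pool.Agent.Work.MP_499dc6_lc.D4
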